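import Pool.Agent.Helper54.CG.NKGoals

/-! # CG, packet NKD: soundness of the check -/

set_option autoImplicit false

namespace Pool.Agent.Helper83.CG.NKD

open Pool.Agent.Helper54.CG.NK

theorem centre_none {p N : ℕ} {x0 : List (ℤ × ℤ)} (h : x0.length = N) {i : ℕ} (hi : N ≤ i) :
    centre p x0 i = 0 := by
  unfold centre
  rw [List.getElem?_eq_none (by omega)]

theorem box_mem {p rho N : ℕ} {x0 : List (ℤ × ℤ)} (h : x0.length = N) {z : ℕ → ℂ}
    (h1 : ∀ i, i < N → ‖z i - centre p x0 i‖ ≤ (rho : ℝ) / 2 ^ p)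
    (h2 : ∀ i, N ≤ i → z i = centre p x0 i) (i : ℕ) : (boxOf x0 rho i).Mem p (z i) := by
  rcases lt_or_ge i N with hi | hi
  · have h3 := h1 i hi
    have hg : x0[i]? = some (x0[i]'(by omega)) := List.getElem?_eq_getElem (by omega)
    unfold centre at h3
    unfold boxOf
    rw [hg] at h3 ⊢
    simp only at h3 ⊢
    unfold Ball.Mem
    simp only
    have hp : (0 : ℝ) < 2 ^ p := by positivity
    have e : (2 : ℂ) ^ p * z i - (((x0[i]'(by omega)).1 : ℂ) +
        ((x0[i]'(by omega)).2 : ℂ) * Complex.I) = (2 : ℂ) ^ p * (z i -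
        (((x0[i]'(by omega)).1 : ℂ) + ((x0[i]'(by omega)).2 : ℂ) * Complex.I) / 2 ^ p) := by
      rw [mul_sub, mul_div_cancel₀]
      exact pow_ne_zero _ two_ne_zero
    rw [e, norm_mul, norm_pow]
    simp only [Complex.norm_ofNat]
    rw [le_div_iff₀ hp] at h3
    linarith
  · rw [h2 i hi, centre_none h hi]
    unfold boxOf
    rw [List.getElem?_eq_none (by omega)]
    unfold Ball.Mem
    simp

theorem mem_norm {p : ℕ} {b : Ball} {z : ℂ} (h : b.Mem p z) :
    ‖z - ((b.re : ℂ) + (b.im : ℂ) * Complex.I) / 2 ^ p‖ ≤ (b.rad : ℝ) / 2 ^ p := by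
  have hp : (0 : ℝ) < 2 ^ p := by positivity
  unfold Ball.Mem at h
  rw [le_div_iff₀ hp]
  have e : (2 : ℂ) ^ p * z - ((b.re : ℂ) + (b.im : ℂ) * Complex.I) = (2 : ℂ) ^ p * (z -
      ((b.re : ℂ) + (b.im : ℂ) * Complex.I) / 2 ^ p) := by
    rw [mul_sub, mul_div_cancel₀]
    exact pow_ne_zero _ two_ne_zero
  rw [e, norm_mul, norm_pow] at h
  simp only [Complex.norm_ofNat] at h
  linarith

/-- the extension by zero -/
noncomputable def ext (N : ℕ) (x : Fin N → ℂ) (i : ℕ) : ℂ := if h : i < N then x ⟨i, h⟩ else 0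

theorem ext_lt {N : ℕ} (x : Fin N → ℂ) (i : Fin N) : ext N x i = x i := by
  unfold ext
  rw [dif_pos i.2]

theorem ext_ge {N : ℕ} (x : Fin N → ℂ) {i : ℕ} (hi : N ≤ i) : ext N x i = 0 := by
  unfold ext
  rw [dif_neg (by omega)]

/-- NK-D -/
theorem t (hA : S_A) (hB : S_B) (hC : S_C) (hD : S_D1) : S_D := by
  intro p q rho N eqs opens x0 A hchk
  obtain ⟨hlen, hlen0, hrow, hval, hop⟩ := hD p q rho N eqs opens x0 A hchk
  have hp : (0 : ℝ) < 2 ^ p := by positivity
  have hb : ∀ x : Fin N → ℂ, (∀ i : Fin N, ‖x i - centre p x0 i‖ ≤ (rho : ℝ) / 2 ^ p) →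
      (∀ i, i < N → ‖ext N x i - centre p x0 i‖ ≤ (rho : ℝ) / 2 ^ p) ∧
      (∀ i, N ≤ i → ext N x i = centre p x0 i) := by
    intro x hx
    refine ⟨fun i hi => ?_, fun i hi => ?_⟩
    · have := hx ⟨i, hi⟩
      rw [← ext_lt x ⟨i, hi⟩] at this
      exact this
    · rw [ext_ge x hi, centre_none hlen0 hi]
  have hc : ext N (fun i : Fin N => centre p x0 i) = centre p x0 := by
    funext i
    rcases lt_or_ge i N with hi | hi
    · exact ext_lt _ ⟨i, hi⟩
    · rw [ext_ge _ hi, centre_none hlen0 hi]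
  obtain ⟨x, hx1, hx2⟩ := hA N (fun x i => (eqs.getD i (.k 0 0)).eval (ext N x))
    (fun i => centre p x0 i) ((rho : ℝ) / 2 ^ p)
    (fun i j => ((((Jb p rho eqs x0 i j).re : ℂ) +
        ((Jb p rho eqs x0 i j).im : ℂ) * Complex.I) / 2 ^ p))
    (fun r j => Am q A r j) (fun i j => ((Jb p rho eqs x0 i j).rad : ℝ) / 2 ^ p)
    (by positivity) (fun i j => by positivity)
    (by
      intro x y hx hy i
      obtain ⟨a1, a2⟩ := hb x hx
      obtain ⟨b1, b2⟩ := hb y hy
      have h := hB N (eqs.getD i (.k 0 0)) (centre p x0) ((rho : ℝ) / 2 ^ p) (ext N x) (ext N y)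
        (fun j => ((((Jb p rho eqs x0 i j).re : ℂ) +
          ((Jb p rho eqs x0 i j).im : ℂ) * Complex.I) / 2 ^ p))
        (fun j => ((Jb p rho eqs x0 i j).rad : ℝ) / 2 ^ p) a1 b1 a2 b2
        (fun z hz1 hz2 j _ => by
          have h1 := hC p (boxOf x0 rho) z (der j (eqs.getD i (.k 0 0)))
            (box_mem hlen0 hz1 hz2)
          exact mem_norm h1)
      rw [Finset.sum_range, Finset.sum_range] at h
      simp only [ext_lt] at h
      exact h)
    (by
      intro r
      have h := hrow r r.2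
      rw [Finset.sum_range, Finset.sum_range] at h
      refine le_trans (le_of_eq ?_) h
      congr 1
      · refine Finset.sum_congr rfl fun k _ => ?_
        rw [Finset.sum_range]
        simp only [Fin.ext_iff]
      · refine Finset.sum_congr rfl fun k _ => ?_
        rw [Finset.sum_range])
    (by
      intro r
      have h := hval r r.2 (fun j => (eqs.getD j (.k 0 0)).eval (centre p x0)) (fun j _ => by
        refine hC p (boxOf x0 0) (centre p x0) (eqs.getD j (.k 0 0)) fun i => ?_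
        exact box_mem hlen0 (fun i _ => by simp) (fun i _ => rfl) i)
      rw [Finset.sum_range] at h
      simp only [hc]
      exact h)
  obtain ⟨h1, h2⟩ := hb x hx1
  refine ⟨ext N x, h1, fun e he => ?_, fun e he => ?_⟩
  · obtain ⟨i, hi, rfl⟩ := List.getElem_of_mem he
    have h3 := congrFun hx2 ⟨i, by omega⟩
    simp only [Pi.zero_apply] at h3
    rw [List.getD_eq_getElem _ _ hi] at h3
    exact h3
  · exact hop e he _ (hC p (boxOf x0 rho) (ext N x) e (box_mem hlen0 h1 h2))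

end Pool.Agent.Helper83.CG.NKD
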